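import Mathlib
import Pool.Agent.Y957.MC.Spec

/-!
# From the mean square bound to almost everywhere convergence
-/

set_option autoImplicit false

namespace Pool.Agent.Y86.MC

open MeasureTheory Filter Finset Pool.Agent.Y957.MC

universe u

theorem ae_summable_of {Ω : Type*} [MeasurableSpace Ω] (ν : Measure Ω) (f : ℕ → Ω → ℝ)
    (hm : ∀ l, Measurable (f l)) (h0 : ∀ l x, 0 ≤ f l x) (c : ℕ → ℝ) (hc : Summable c)
    (hi : ∀ l, Integrable (f l) ν) (hle : ∀ l, ∫ x, f l x ∂ν ≤ c l) :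
    ∀ᵐ x ∂ν, Summable fun l => f l x := by
  have h1 : ∫⁻ x, ∑' l, ENNReal.ofReal (f l x) ∂ν ≠ ⊤ := by
    rw [lintegral_tsum (fun l => (hm l).ennreal_ofReal.aemeasurable)]
    have h2 : ∀ l, ∫⁻ x, ENNReal.ofReal (f l x) ∂ν = ENNReal.ofReal (∫ x, f l x ∂ν) := fun l =>
      (ofReal_integral_eq_lintegral_ofReal (hi l) (ae_of_all _ (h0 l))).symm
    simp_rw [h2]
    exact ne_top_of_le_ne_top hc.tsum_ofReal_ne_top
      (ENNReal.tsum_le_tsum fun l => ENNReal.ofReal_le_ofReal (hle l))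
  filter_upwards [ae_lt_top (Measurable.tsum fun l => (hm l).ennreal_ofReal) h1] with x hx
  have h3 := ENNReal.summable_toReal hx.ne
  refine h3.congr fun l => ?_
  rw [ENNReal.toReal_ofReal (h0 l x)]

/-- summability of the bounds -/
theorem summable_bound {δ C : ℝ} {m : ℕ} (hm : 1 < m * δ) (l₀ : ℕ) :
    Summable fun l : ℕ => C * ((((l + l₀ + 1) ^ m : ℕ) : ℝ)) ^ (-δ) := by
  apply Summable.mul_left
  have h1 : Summable fun n : ℕ => (n : ℝ) ^ (-(m * δ)) :=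
    Real.summable_nat_rpow.2 (by linarith)
  have h2 := (summable_nat_add_iff (l₀ + 1)).2 h1
  refine h2.congr fun l => ?_
  push_cast
  rw [← Real.rpow_natCast, ← Real.rpow_mul (by positivity)]
  congr 1
  · ring
  · ring

theorem det {c : ℕ → ℂ} (hc : ∀ n, ‖c n‖ ≤ 1)
    (h : ∀ j : ℕ, ∃ m : ℕ, 0 < m ∧ Tendsto (fun l : ℕ => (1 / (((l + 1) ^ m : ℕ) : ℂ)) *
      ∑ n ∈ Ioc ⌊(1 / ((j : ℝ) + 1)) * (((l + 1) ^ m : ℕ) : ℝ)⌋₊ ((l + 1) ^ m), c n)
      atTop (nhds 0)) :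
    Tendsto (fun N : ℕ => (1 / (N : ℂ)) * ∑ n ∈ Icc 1 N, c n) atTop (nhds 0) := by
  have hcard : ∀ a b : ℕ, ‖∑ n ∈ Ioc a b, c n‖ ≤ ((b - a : ℕ) : ℝ) := by
    intro a b
    refine (norm_sum_le _ _).trans ?_
    refine (Finset.sum_le_sum fun n _ => hc n).trans ?_
    rw [Finset.sum_const, Nat.card_Ioc, nsmul_eq_mul, mul_one]
  rw [Metric.tendsto_atTop]
  intro η hη
  obtain ⟨j, hj⟩ := exists_nat_one_div_lt (show (0 : ℝ) < η / 4 by positivity)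
  obtain ⟨m, hm0, hm⟩ := h j
  have hg : Tendsto (fun l : ℕ => (1 + 1 / ((l : ℝ) + 1)) ^ m - 1) atTop (nhds 0) := by
    have h1 : Tendsto (fun l : ℕ => 1 + 1 / ((l : ℝ) + 1)) atTop (nhds (1 + 0)) :=
      tendsto_const_nhds.add tendsto_one_div_add_atTop_nhds_zero_nat
    have h2 := (h1.pow m).sub_const 1
    rw [add_zero, one_pow, sub_self] at h2
    exact h2
  rw [Metric.tendsto_atTop] at hm hg
  obtain ⟨l₁, hl₁⟩ := hm (η / 4) (by positivity)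
  obtain ⟨l₂, hl₂⟩ := hg (η / 4) (by positivity)
  set l₀ := max l₁ l₂ with hl₀
  refine ⟨(l₀ + 1) ^ m, fun N hN => ?_⟩
  -- the block
  obtain ⟨l, hl, hNl, hNl'⟩ : ∃ l, l₀ ≤ l ∧ (l + 1) ^ m ≤ N ∧ N < (l + 2) ^ m := by
    have hex : ∃ k, N < (k + 1) ^ m := ⟨N, by
      calc N < N + 1 := Nat.lt_succ_self N
        _ ≤ (N + 1) ^ m := Nat.le_self_pow hm0.ne' _⟩
    classical
    have hspec := Nat.find_spec hex
    set k := Nat.find hex with hk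
    have hk1 : l₀ < k := by
      by_contra hcon
      push Not at hcon
      have : (k + 1) ^ m ≤ (l₀ + 1) ^ m := Nat.pow_le_pow_left (by omega) m
      omega
    obtain ⟨l, hkl⟩ : ∃ l, k = l + 1 := ⟨k - 1, by omega⟩
    refine ⟨l, by omega, ?_, ?_⟩
    · have h3 := Nat.find_min hex (m := l) (by omega)
      omega
    · rw [hkl] at hspec
      exact hspec
  have hl1 : l₁ ≤ l := le_trans (le_max_left _ _) hl
  have hl2 : l₂ ≤ l := le_trans (le_max_right _ _) hl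
  have e1 := hl₁ l hl1
  have e2 := hl₂ l hl2
  rw [dist_zero_right] at e1 e2 ⊢
  set M : ℕ := (l + 1) ^ m with hM
  have hMpos : 0 < M := Nat.pow_pos (Nat.succ_pos l)
  have hMpos' : (0 : ℝ) < M := Nat.cast_pos.2 hMpos
  have hNpos : 0 < N := lt_of_lt_of_le hMpos hNl
  have hNpos' : (0 : ℝ) < N := Nat.cast_pos.2 hNpos
  set k : ℕ := ⌊(1 / ((j : ℝ) + 1)) * (M : ℝ)⌋₊ with hk
  have hk1 : (k : ℝ) ≤ (1 / ((j : ℝ) + 1)) * (M : ℝ) := Nat.floor_le (by positivity)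
  have hkM : k ≤ M := by
    have h4 : (k : ℝ) ≤ M := hk1.trans (by
      have h5 : 1 / ((j : ℝ) + 1) ≤ 1 := by
        rw [div_le_one (by positivity)]
        have : (0 : ℝ) ≤ j := Nat.cast_nonneg j
        linarith
      nlinarith)
    exact_mod_cast h4
  have hsplit : ∑ n ∈ Icc 1 N, c n = ∑ n ∈ Ioc 0 k, c n + ∑ n ∈ Ioc k M, c n + ∑ n ∈ Ioc M N, c n := by
    rw [Finset.sum_Ioc_consecutive c (Nat.zero_le k) hkM,
      Finset.sum_Ioc_consecutive c (Nat.zero_le M) hNl]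
    rfl
  have f1 : ‖∑ n ∈ Ioc 0 k, c n‖ ≤ η / 4 * M := by
    refine (hcard 0 k).trans ?_
    rw [Nat.sub_zero]
    refine hk1.trans ?_
    exact mul_le_mul_of_nonneg_right hj.le hMpos'.le
  have f2 : ‖∑ n ∈ Ioc k M, c n‖ ≤ η / 4 * M := by
    rw [norm_mul, norm_div, norm_one, Complex.norm_natCast] at e1
    have h6 : ‖∑ n ∈ Ioc k M, c n‖ = M * (1 / (M : ℝ) * ‖∑ n ∈ Ioc k M, c n‖) := by
      field_simp
    rw [h6]
    nlinarith [e1]
  have f3 : ‖∑ n ∈ Ioc M N, c n‖ ≤ η / 4 * M := by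
    refine (hcard M N).trans ?_
    have h7 : ((N - M : ℕ) : ℝ) ≤ (((l : ℝ) + 2) ^ m - M) := by
      rw [Nat.cast_sub hNl]
      have : (N : ℝ) ≤ ((l : ℝ) + 2) ^ m := by exact_mod_cast hNl'.le
      linarith
    refine h7.trans ?_
    have h8 : ((l : ℝ) + 2) ^ m = M * (1 + 1 / ((l : ℝ) + 1)) ^ m := by
      rw [hM]
      push_cast
      rw [← mul_pow]
      congr 1
      field_simp
      ring
    rw [h8]
    have h9 := (abs_lt.1 (by simpa [Real.norm_eq_abs] using e2 : |(1 + 1 / ((l : ℝ) + 1)) ^ m - 1| < η / 4)).2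
    nlinarith
  rw [norm_mul, norm_div, norm_one, Complex.norm_natCast, hsplit, one_div, inv_mul_lt_iff₀ hNpos']
  have f4 : ‖∑ n ∈ Ioc 0 k, c n + ∑ n ∈ Ioc k M, c n + ∑ n ∈ Ioc M N, c n‖ ≤
      η / 4 * M + η / 4 * M + η / 4 * M :=
    (norm_add_le _ _).trans (add_le_add ((norm_add_le _ _).trans (add_le_add f1 f2)) f3)
  have h10 : (M : ℝ) ≤ N := by exact_mod_cast hNl
  nlinarith

theorem ae_block {X : Type u} [MeasurableSpace X] (F : X → ℝ → ℂ) (p : ℕ → ℝ)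
    (hmeas : Measurable (fun p : X × ℝ => F p.1 p.2)) (hb : ∀ x v, ‖F x v‖ ≤ 1)
    (x : X) (B : ℕ → ℂ) (hB : ∀ n, ‖B n‖ ≤ 1) (ε A : ℝ) (hA : 0 < A) (R : ℕ → ℝ) (m : ℕ)
    (hm0 : 0 < m) (l₀ : ℕ)
    (hs : Summable fun l : ℕ => R ((l + l₀ + 1) ^ m))
    (hR : ∀ᶠ N : ℕ in atTop,
      ∫ a in A..2 * A, ‖(1 / (N : ℂ)) * ∑ n ∈ Ioc ⌊ε * N⌋₊ N, B n * F x (a * p n)‖ ^ 2 ≤ R N) :
    ∀ᵐ a ∂(volume.restrict (Set.Ioc A (2 * A))),
      Tendsto (fun l : ℕ => (1 / (((l + 1) ^ m : ℕ) : ℂ)) *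
      ∑ n ∈ Ioc ⌊ε * (((l + 1) ^ m : ℕ) : ℝ)⌋₊ ((l + 1) ^ m), B n * F x (a * p n))
      atTop (nhds 0) := by
  obtain ⟨N₁, hN₁⟩ := eventually_atTop.1 hR
  let D : ℕ → ℝ → ℂ := fun N a => (1 / (N : ℂ)) * ∑ n ∈ Ioc ⌊ε * N⌋₊ N, B n * F x (a * p n)
  have hDm : ∀ N, Measurable (D N) := by
    intro N
    refine Measurable.const_mul ?_ _
    refine Finset.measurable_sum _ fun n _ => ?_
    refine Measurable.const_mul ?_ _
    exact hmeas.comp (measurable_const.prodMk (measurable_id.mul_const (p n)))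
  have hDb : ∀ N a, ‖D N a‖ ≤ 1 := by
    intro N a
    change ‖(1 / (N : ℂ)) * ∑ n ∈ Ioc ⌊ε * N⌋₊ N, B n * F x (a * p n)‖ ≤ 1
    rw [norm_mul, norm_div, norm_one, Complex.norm_natCast]
    rcases Nat.eq_zero_or_pos N with hN | hN
    · rw [hN]
      simp
    · have h1 : ‖∑ n ∈ Ioc ⌊ε * N⌋₊ N, B n * F x (a * p n)‖ ≤ N := by
        refine (norm_sum_le _ _).trans ?_
        have h2 : ∀ n ∈ Ioc ⌊ε * N⌋₊ N, ‖B n * F x (a * p n)‖ ≤ 1 := by
          intro n _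
          rw [norm_mul]
          exact mul_le_one₀ (hB n) (norm_nonneg _) (hb x _)
        refine (Finset.sum_le_sum h2).trans ?_
        rw [Finset.sum_const, Nat.card_Ioc, nsmul_eq_mul, mul_one]
        exact_mod_cast Nat.sub_le _ _
      have hN' : (0 : ℝ) < N := Nat.cast_pos.2 hN
      rw [one_div, inv_mul_le_iff₀ hN', mul_one]
      exact h1
  set l₁ := max l₀ N₁ with hl₁
  have hs' : Summable fun l : ℕ => R ((l + l₁ + 1) ^ m) := by
    have h1 := (summable_nat_add_iff (l₁ - l₀)).2 hs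
    refine h1.congr fun l => ?_
    congr 2
    have : l₀ ≤ l₁ := le_max_left _ _
    omega
  have hge : ∀ l : ℕ, N₁ ≤ (l + l₁ + 1) ^ m := by
    intro l
    have h1 : N₁ ≤ l₁ := le_max_right _ _
    calc N₁ ≤ l + l₁ + 1 := by omega
      _ ≤ _ := Nat.le_self_pow hm0.ne' _
  have key := ae_summable_of (volume.restrict (Set.Ioc A (2 * A)))
    (fun l a => ‖D ((l + l₁ + 1) ^ m) a‖ ^ 2) (fun l => ((hDm _).norm).pow_const 2)
    (fun l a => by positivity) _ hs' (fun l => by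
      refine Integrable.of_bound (((hDm _).norm).pow_const 2).aestronglyMeasurable 1 ?_
      refine ae_of_all _ fun a => ?_
      rw [Real.norm_eq_abs, abs_of_nonneg (by positivity)]
      exact pow_le_one₀ (norm_nonneg _) (hDb _ _)) (fun l => by
      have h1 := hN₁ _ (hge l)
      rw [intervalIntegral.integral_of_le (by linarith)] at h1
      exact h1)
  filter_upwards [key] with a ha
  have h2 := ha.tendsto_atTop_zero
  have h3 : Tendsto (fun l => ‖D ((l + l₁ + 1) ^ m) a‖) atTop (nhds 0) := by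
    have h4 := h2.sqrt
    rw [Real.sqrt_zero] at h4
    refine h4.congr fun l => ?_
    rw [Real.sqrt_sq (norm_nonneg _)]
  have h5 : Tendsto (fun l => D ((l + l₁ + 1) ^ m) a) atTop (nhds 0) :=
    tendsto_zero_iff_norm_tendsto_zero.2 h3
  have h6 : Tendsto (fun l => D ((l + 1) ^ m) a) atTop (nhds 0) := by
    rw [← tendsto_add_atTop_iff_nat l₁]
    exact h5
  exact h6

theorem nice (h : S_EST.{u}) : S_NICE.{u} := by
  intro p hp X _ μ _ T F hF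
  have h1 : ∀ (j : ℕ) (i : ℤ), ∃ (R : ℕ → X → ℝ) (m : ℕ), 0 < m ∧
      (∀ᵐ x ∂μ, ∃ l₀ : ℕ, Summable fun l : ℕ => R ((l + l₀ + 1) ^ m) x) ∧
      ∀ᶠ N : ℕ in atTop, ∀ (x : X) (B : ℕ → ℂ), (∀ n, ‖B n‖ ≤ 1) →
        ∫ a in (2 : ℝ) ^ i..2 * (2 : ℝ) ^ i, ‖(1 / (N : ℂ)) *
          ∑ n ∈ Ioc ⌊(1 / ((j : ℝ) + 1)) * N⌋₊ N, B n * F x (a * p n)‖ ^ 2 ≤ R N x := by
    intro j i
    obtain ⟨R, C, δ, hδ, hRm, hR0, hRi, hRe⟩ := h p hp X μ T F hF (1 / ((j : ℝ) + 1)) ((2 : ℝ) ^ i)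
      (by positivity) (by positivity)
    obtain ⟨m, hm⟩ := exists_nat_gt (1 / δ)
    have hm1 : 1 < m * δ := by
      rw [div_lt_iff₀ hδ] at hm
      exact hm
    have hm0 : 0 < m := by
      rcases Nat.eq_zero_or_pos m with h0 | h0
      · rw [h0] at hm1
        norm_num at hm1
      · exact h0
    refine ⟨R, m, hm0, ?_, hRe⟩
    obtain ⟨N₀, hN₀⟩ := eventually_atTop.1 hRi
    have hge : ∀ l : ℕ, N₀ ≤ (l + N₀ + 1) ^ m := by
      intro l
      calc N₀ ≤ l + N₀ + 1 := by omega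
        _ ≤ _ := Nat.le_self_pow hm0.ne' _
    have key := ae_summable_of μ (fun l => R ((l + N₀ + 1) ^ m)) (fun l => hRm _)
      (fun l x => hR0 _ x) _ (summable_bound (C := C) hm1 N₀) (fun l => (hN₀ _ (hge l)).1)
      (fun l => (hN₀ _ (hge l)).2)
    filter_upwards [key] with x hx
    exact ⟨N₀, hx⟩
  choose R m hm0 hs hR using h1
  have hs' : ∀ᵐ x ∂μ, ∀ (j : ℕ) (i : ℤ), ∃ l₀ : ℕ,
      Summable fun l : ℕ => R j i ((l + l₀ + 1) ^ m j i) x :=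
    ae_all_iff.2 fun j => ae_all_iff.2 fun i => hs j i
  filter_upwards [hs'] with x hx
  intro B hB
  have h2 : ∀ i : ℤ, ∀ᵐ a ∂(volume.restrict (Set.Ioc ((2 : ℝ) ^ i) ((2 : ℝ) ^ (i + 1)))),
      Tendsto (fun N : ℕ => (1 / (N : ℂ)) * ∑ n ∈ Icc 1 N, B n * F x (a * p n)) atTop (nhds 0) := by
    intro i
    have h3 : ∀ j : ℕ, ∀ᵐ a ∂(volume.restrict (Set.Ioc ((2 : ℝ) ^ i) ((2 : ℝ) ^ (i + 1)))),
        Tendsto (fun l : ℕ => (1 / (((l + 1) ^ (m j i) : ℕ) : ℂ)) *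
          ∑ n ∈ Ioc ⌊(1 / ((j : ℝ) + 1)) * (((l + 1) ^ (m j i) : ℕ) : ℝ)⌋₊ ((l + 1) ^ (m j i)),
            B n * F x (a * p n)) atTop (nhds 0) := by
      intro j
      obtain ⟨l₀, hl₀⟩ := hx j i
      have h4 := ae_block F p hF.stat.meas hF.stat.bdd x B hB (1 / ((j : ℝ) + 1)) ((2 : ℝ) ^ i)
        (by positivity) (fun N => R j i N x) (m j i) (hm0 j i) l₀ hl₀
        ((hR j i).mono fun N hN => hN x B hB)
      have h5 : 2 * (2 : ℝ) ^ i = 2 ^ (i + 1) := by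
        rw [zpow_add₀ two_ne_zero, zpow_one, mul_comm]
      rw [h5] at h4
      exact h4
    filter_upwards [ae_all_iff.2 h3] with a ha
    refine det (fun n => ?_) fun j => ⟨m j i, hm0 j i, ha j⟩
    rw [norm_mul]
    exact mul_le_one₀ (hB n) (norm_nonneg _) (hF.stat.bdd x _)
  have h6 : ∀ᵐ a ∂(volume.restrict (⋃ i : ℤ, Set.Ioc ((2 : ℝ) ^ i) ((2 : ℝ) ^ (i + 1)))),
      Tendsto (fun N : ℕ => (1 / (N : ℂ)) * ∑ n ∈ Icc 1 N, B n * F x (a * p n)) atTop (nhds 0) := by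
    rw [ae_restrict_iUnion_iff]
    exact h2
  refine ae_mono (Measure.restrict_mono_set _ ?_) h6
  intro a ha
  obtain ⟨i, hi⟩ := exists_mem_Ioc_zpow (show (0 : ℝ) < a from ha) (one_lt_two)
  exact Set.mem_iUnion.2 ⟨i, hi⟩

end Pool.Agent.Y86.MC
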