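import Mathlib
import Pool.Agent.Y957.MC.Spec2
import Pool.Agent.Y86.MC.NiceB

/-!
# Borel-Cantelli over boxes
-/

set_option autoImplicit false

namespace Pool.Agent.Y86.MC

open MeasureTheory Filter Pool.Agent.Y957.MC
open Finset hiding box

universe u

theorem mem_box {k : ℕ} {M m : Fin k → ℕ} : m ∈ box M ↔ ∀ l, 1 ≤ m l ∧ m l ≤ M l := by
  unfold box
  rw [Fintype.mem_piFinset]
  refine forall_congr' fun l => ?_
  rw [Finset.mem_Icc]

theorem card_box {k : ℕ} (M : Fin k → ℕ) : (box M).card = ∏ l, M l := by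
  unfold box
  rw [Fintype.card_piFinset]
  refine Finset.prod_congr rfl fun l _ => ?_
  rw [Nat.card_Icc, Nat.add_sub_cancel]

theorem sum_box {k : ℕ} (i : Fin k) (M : Fin k → ℕ) {β : Type*} [AddCommMonoid β]
    (h : (Fin k → ℕ) → β) :
    ∑ m ∈ box M, h m =
      ∑ m ∈ box (Function.update M i 1), ∑ n ∈ Icc 1 (M i), h (Function.update m i n) := by
  rw [← Finset.sum_product']
  refine Finset.sum_bij' (fun m _ => (Function.update m i 1, m i))
    (fun p _ => Function.update p.1 i p.2) ?_ ?_ ?_ ?_ ?_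
  · intro m hm
    rw [mem_box] at hm
    refine Finset.mem_product.2 ⟨mem_box.2 fun l => ?_, Finset.mem_Icc.2 (hm i)⟩
    change 1 ≤ Function.update m i 1 l ∧ Function.update m i 1 l ≤ Function.update M i 1 l
    by_cases hl : l = i
    · subst hl
      rw [Function.update_self, Function.update_self]
      exact ⟨le_rfl, le_rfl⟩
    · rw [Function.update_of_ne hl, Function.update_of_ne hl]
      exact hm l
  · rintro ⟨m, n⟩ hp
    obtain ⟨h1, h2⟩ := Finset.mem_product.1 hp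
    rw [mem_box] at h1
    rw [Finset.mem_Icc] at h2
    refine mem_box.2 fun l => ?_
    change 1 ≤ Function.update m i n l ∧ Function.update m i n l ≤ M l
    by_cases hl : l = i
    · subst hl
      rw [Function.update_self]
      exact h2
    · rw [Function.update_of_ne hl]
      have h3 := h1 l
      rw [Function.update_of_ne hl] at h3
      exact h3
  · intro m _
    change Function.update (Function.update m i 1) i (m i) = m
    rw [Function.update_idem, Function.update_eq_self]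
  · rintro ⟨m, n⟩ hp
    obtain ⟨h1, h2⟩ := Finset.mem_product.1 hp
    have h1' : ∀ l, 1 ≤ m l ∧ m l ≤ Function.update M i 1 l := mem_box.1 h1
    have h3 : m i = 1 := by
      have h4 := h1' i
      rw [Function.update_self] at h4
      omega
    change (Function.update (Function.update m i n) i 1, Function.update m i n i) = (m, n)
    rw [Function.update_idem, Function.update_self]
    congr 1
    rw [← h3, Function.update_eq_self]
  · intro m _
    change h m = h (Function.update (Function.update m i 1) i (m i))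
    rw [Function.update_idem, Function.update_eq_self]

theorem card_split {k : ℕ} (i : Fin k) (M : Fin k → ℕ) :
    ∏ l, M l = (box (Function.update M i 1)).card * M i := by
  rw [← card_box M, Finset.card_eq_sum_ones, sum_box i M]
  simp only [Finset.sum_const, Nat.card_Icc, Nat.add_sub_cancel, smul_eq_mul, mul_one]

/-- the constant part of the linear form -/
noncomputable def bm {k : ℕ} (c : Fin k → ℝ) (i : Fin k) (m : Fin k → ℕ) : ℝ :=
  ∑ l ∈ univ.erase i, c l * (m l : ℝ)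

theorem lin_update {k : ℕ} (c : Fin k → ℝ) (i : Fin k) (m : Fin k → ℕ) (n : ℕ) :
    lin c (Function.update m i n) = c i * n + bm c i m := by
  unfold lin bm
  rw [← Finset.add_sum_erase _ _ (Finset.mem_univ i), Function.update_self]
  congr 1
  refine Finset.sum_congr rfl fun l hl => ?_
  rw [Function.update_of_ne (Finset.ne_of_mem_erase hl)]

theorem bm_le {k : ℕ} (c : Fin k → ℝ) (i : Fin k) {M m : Fin k → ℕ} (hM : ∀ l, M l ≤ M i)
    (hm : m ∈ box (Function.update M i 1)) : |bm c i m| ≤ (∑ l, |c l| + 1) * (M i : ℕ) := by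
  unfold bm
  rw [mem_box] at hm
  refine (Finset.abs_sum_le_sum_abs _ _).trans ?_
  have h1 : ∀ l ∈ univ.erase i, |c l * (m l : ℝ)| ≤ |c l| * (M i : ℕ) := by
    intro l hl
    rw [abs_mul, abs_of_nonneg (a := (m l : ℝ)) (Nat.cast_nonneg _)]
    refine mul_le_mul_of_nonneg_left ?_ (abs_nonneg _)
    have h2 := (hm l).2
    rw [Function.update_of_ne (Finset.ne_of_mem_erase hl)] at h2
    exact_mod_cast h2.trans (hM l)
  refine (Finset.sum_le_sum h1).trans ?_
  rw [← Finset.sum_mul]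
  refine mul_le_mul_of_nonneg_right ?_ (Nat.cast_nonneg _)
  have h3 : ∑ l ∈ univ.erase i, |c l| ≤ ∑ l, |c l| :=
    Finset.sum_le_sum_of_subset_of_nonneg (Finset.erase_subset _ _) fun l _ _ => abs_nonneg _
  linarith

/-- averages over a box as averages of averages over the side `i` -/
theorem bavg_split {k : ℕ} (c : Fin k → ℝ) (i : Fin k) (M : Fin k → ℕ) (ε : ℝ)
    (h : (Fin k → ℕ) → ℂ) :
    bavg M (fun m => if ε * (M i : ℕ) ≤ lin c m then h m else 0) =
      (1 / ((box (Function.update M i 1)).card : ℂ)) *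
        ∑ m ∈ box (Function.update M i 1), (1 / ((M i : ℕ) : ℂ)) *
          ∑ n ∈ (Icc 1 (M i)).filter (fun n : ℕ => ε * (M i : ℕ) ≤ c i * n + bm c i m),
            h (Function.update m i n) := by
  unfold bavg
  rw [card_split i M, sum_box i M, ← Finset.mul_sum, ← mul_assoc]
  congr 1
  · push_cast
    rw [one_div_mul_one_div]
  · refine Finset.sum_congr rfl fun m _ => ?_
    rw [Finset.sum_filter]
    refine Finset.sum_congr rfl fun n _ => ?_
    rw [lin_update]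

theorem sq_avg {ι : Type*} (s : Finset ι) (f : ι → ℂ) :
    ‖(1 / (s.card : ℂ)) * ∑ m ∈ s, f m‖ ^ 2 ≤ (1 / (s.card : ℝ)) * ∑ m ∈ s, ‖f m‖ ^ 2 := by
  rcases Nat.eq_zero_or_pos s.card with h0 | h0
  · rw [h0]
    simp
  have h0' : (0 : ℝ) < s.card := Nat.cast_pos.2 h0
  rw [norm_mul, norm_div, norm_one, Complex.norm_natCast, mul_pow]
  have h1 : ‖∑ m ∈ s, f m‖ ^ 2 ≤ s.card * ∑ m ∈ s, ‖f m‖ ^ 2 := by
    refine (pow_le_pow_left₀ (norm_nonneg _) (norm_sum_le _ _) 2).trans ?_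
    exact sq_sum_le_card_mul_sum_sq
  calc (1 / (s.card : ℝ)) ^ 2 * ‖∑ m ∈ s, f m‖ ^ 2
      ≤ (1 / (s.card : ℝ)) ^ 2 * (s.card * ∑ m ∈ s, ‖f m‖ ^ 2) := by gcongr
    _ = (1 / (s.card : ℝ)) * ∑ m ∈ s, ‖f m‖ ^ 2 := by
        field_simp

/-- bounded measurable functions of this kind are integrable -/
theorem int_of_bdd {f : ℝ → ℂ} (hf : Measurable f) (K : ℝ) (hK : ∀ a, ‖f a‖ ≤ K) (A : ℝ) :
    Integrable (fun a => ‖f a‖ ^ 2) (volume.restrict (Set.Ioc A (2 * A))) := by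
  refine Integrable.of_bound (hf.norm.pow_const 2).aestronglyMeasurable (K ^ 2) ?_
  refine ae_of_all _ fun a => ?_
  rw [Real.norm_eq_abs, abs_of_nonneg (by positivity)]
  exact pow_le_pow_left₀ (norm_nonneg _) (hK a) 2

theorem norm_avg_le {ι : Type*} (s : Finset ι) (f : ι → ℂ) (hf : ∀ m, ‖f m‖ ≤ 1) (N : ℕ)
    (hN : s.card ≤ N) : ‖(1 / (N : ℂ)) * ∑ m ∈ s, f m‖ ≤ 1 := by
  rw [norm_mul, norm_div, norm_one, Complex.norm_natCast]
  have h1 : ‖∑ m ∈ s, f m‖ ≤ N := by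
    refine (norm_sum_le _ _).trans ((Finset.sum_le_sum fun m _ => hf m).trans ?_)
    rw [Finset.sum_const, nsmul_eq_mul, mul_one]
    exact_mod_cast hN
  rcases Nat.eq_zero_or_pos N with hN0 | hN0
  · rw [hN0]
    simp
  · have hN' : (0 : ℝ) < N := Nat.cast_pos.2 hN0
    rw [one_div, inv_mul_le_iff₀ hN', mul_one]
    exact h1

/-- mean square of the average over a box -/
theorem int_box {X : Type u} [MeasurableSpace X] (F : X → ℝ → ℂ)
    (hmeas : Measurable (fun p : X × ℝ => F p.1 p.2)) (hb : ∀ x v, ‖F x v‖ ≤ 1)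
    (x : X) {k : ℕ} (c : Fin k → ℝ) (i : Fin k) (B : (Fin k → ℕ) → ℂ) (hB : ∀ m, ‖B m‖ ≤ 1)
    (ε A : ℝ) (hA : 0 < A) (M : Fin k → ℕ) (hM0 : ∀ l, 0 < M l) (hM : ∀ l, M l ≤ M i) (R : ℝ)
    (hR : ∀ (B : ℕ → ℂ) (b : ℝ), (∀ n, ‖B n‖ ≤ 1) → |b| ≤ (∑ l, |c l| + 1) * (M i : ℕ) →
      ∫ a in A..2 * A, ‖(1 / ((M i : ℕ) : ℂ)) *
        ∑ n ∈ (Icc 1 (M i)).filter (fun n : ℕ => ε * (M i : ℕ) ≤ c i * n + b),
          B n * F x (a * (c i * n + b))‖ ^ 2 ≤ R) :
    ∫ a in Set.Ioc A (2 * A), ‖bavg M (fun m => if ε * (M i : ℕ) ≤ lin c m then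
      B m * F x (a * lin c m) else 0)‖ ^ 2 ≤ R := by
  set s := box (Function.update M i 1) with hs
  have hs0 : 0 < s.card := by
    have h1 := card_split i M
    have h2 : 0 < ∏ l, M l := Finset.prod_pos fun l _ => hM0 l
    rw [h1] at h2
    exact Nat.pos_of_mul_pos_right h2
  have hs0' : (0 : ℝ) < s.card := Nat.cast_pos.2 hs0
  let D : (Fin k → ℕ) → ℝ → ℂ := fun m a => (1 / ((M i : ℕ) : ℂ)) *
        ∑ n ∈ (Icc 1 (M i)).filter (fun n : ℕ => ε * (M i : ℕ) ≤ c i * n + bm c i m),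
          B (Function.update m i n) * F x (a * (c i * n + bm c i m))
  have hDm : ∀ m, Measurable (D m) := by
    intro m
    refine Measurable.const_mul ?_ _
    refine Finset.measurable_sum _ fun n _ => ?_
    refine Measurable.const_mul ?_ _
    exact hmeas.comp (measurable_const.prodMk (measurable_id.mul_const _))
  have hDb : ∀ m a, ‖D m a‖ ≤ 1 := by
    intro m a
    refine norm_avg_le _ _ (fun n => ?_) _ ?_
    · rw [norm_mul]
      exact mul_le_one₀ (hB _) (norm_nonneg _) (hb _ _)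
    · refine (Finset.card_filter_le _ _).trans ?_
      rw [Nat.card_Icc, Nat.add_sub_cancel]
  have heq : ∀ a, bavg M (fun m => if ε * (M i : ℕ) ≤ lin c m then
      B m * F x (a * lin c m) else 0) = (1 / (s.card : ℂ)) * ∑ m ∈ s, D m a := by
    intro a
    rw [bavg_split c i M ε (fun m => B m * F x (a * lin c m))]
    congr 1
    refine Finset.sum_congr rfl fun m _ => ?_
    change _ = (1 / ((M i : ℕ) : ℂ)) * _
    congr 1
    refine Finset.sum_congr rfl fun n _ => ?_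
    rw [lin_update]
  have hint : ∀ m, Integrable (fun a => ‖D m a‖ ^ 2) (volume.restrict (Set.Ioc A (2 * A))) :=
    fun m => int_of_bdd (hDm m) 1 (hDb m) A
  have h1 : ∀ m ∈ s, ∫ a in Set.Ioc A (2 * A), ‖D m a‖ ^ 2 ≤ R := by
    intro m hm
    have h2 := hR (fun n => B (Function.update m i n)) (bm c i m) (fun n => hB _) (bm_le c i hM hm)
    rw [intervalIntegral.integral_of_le (by linarith)] at h2
    exact h2
  calc ∫ a in Set.Ioc A (2 * A), ‖bavg M (fun m => if ε * (M i : ℕ) ≤ lin c m then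
      B m * F x (a * lin c m) else 0)‖ ^ 2
      ≤ ∫ a in Set.Ioc A (2 * A), (1 / (s.card : ℝ)) * ∑ m ∈ s, ‖D m a‖ ^ 2 := by
        refine integral_mono_of_nonneg (ae_of_all _ fun a => by positivity)
          ((integrable_finsetSum _ fun m _ => hint m).const_mul _) (ae_of_all _ fun a => ?_)
        change ‖bavg M _‖ ^ 2 ≤ _
        rw [heq a]
        exact sq_avg s fun m => D m a
    _ = (1 / (s.card : ℝ)) * ∑ m ∈ s, ∫ a in Set.Ioc A (2 * A), ‖D m a‖ ^ 2 := by
        rw [integral_const_mul, integral_finsetSum _ fun m _ => hint m]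
    _ ≤ (1 / (s.card : ℝ)) * ∑ m ∈ s, R := by
        gcongr with m hm
        exact h1 m hm
    _ = R := by
        rw [Finset.sum_const, nsmul_eq_mul]
        field_simp

/-- the grid boxes -/
def gb {k : ℕ} (q : ℕ) (t : Fin k → ℕ) : Fin k → ℕ := fun l => (t l + 1) ^ q

/-- convergence along the grid boxes -/
theorem ae_grid {X : Type u} [MeasurableSpace X] (F : X → ℝ → ℂ)
    (hmeas : Measurable (fun p : X × ℝ => F p.1 p.2)) (hb : ∀ x v, ‖F x v‖ ≤ 1)
    (x : X) {k : ℕ} (c : Fin k → ℝ) (i : Fin k) (B : (Fin k → ℕ) → ℂ) (hB : ∀ m, ‖B m‖ ≤ 1)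
    (ε A : ℝ) (hA : 0 < A) (R : ℕ → ℝ) (q : ℕ) (hq : 0 < q) (T₀ : ℕ)
    (hs : Summable fun T : ℕ => ((T : ℝ) + T₀ + 1) ^ k * R ((T + T₀ + 1) ^ q))
    (hR : ∀ᶠ N : ℕ in atTop, ∀ (B : ℕ → ℂ) (b : ℝ), (∀ n, ‖B n‖ ≤ 1) →
      |b| ≤ (∑ l, |c l| + 1) * N →
      ∫ a in A..2 * A, ‖(1 / (N : ℂ)) *
        ∑ n ∈ (Icc 1 N).filter (fun n : ℕ => ε * N ≤ c i * n + b),
          B n * F x (a * (c i * n + b))‖ ^ 2 ≤ R N) :
    ∀ᵐ a ∂(volume.restrict (Set.Ioc A (2 * A))), ∀ η : ℝ, 0 < η → ∃ T₁ : ℕ, ∀ t : Fin k → ℕ,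
      T₁ ≤ t i → (∀ l, t l ≤ t i) →
      ‖bavg (gb q t) (fun m => if ε * (gb q t i : ℕ) ≤ lin c m then
        B m * F x (a * lin c m) else 0)‖ ≤ η := by
  obtain ⟨N₁, hN₁⟩ := eventually_atTop.1 hR
  let D : (Fin k → ℕ) → ℝ → ℂ := fun t a => bavg (gb q t) (fun m => if
    ε * (gb q t i : ℕ) ≤ lin c m then B m * F x (a * lin c m) else 0)
  have hDm : ∀ t, Measurable (D t) := by
    intro t
    refine Measurable.const_mul ?_ _
    refine Finset.measurable_sum _ fun n _ => ?_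
    by_cases hn : ε * (gb q t i : ℕ) ≤ lin c n
    · simp only [if_pos hn]
      refine Measurable.const_mul ?_ _
      exact hmeas.comp (measurable_const.prodMk (measurable_id.mul_const _))
    · simp only [if_neg hn]
      exact measurable_const
  have hDb : ∀ t a, ‖D t a‖ ≤ 1 := by
    intro t a
    change ‖(1 / ((∏ i, gb q t i : ℕ) : ℂ)) * ∑ m ∈ box (gb q t), _‖ ≤ 1
    refine norm_avg_le _ _ (fun n => ?_) _ (card_box _).le
    split_ifs
    · rw [norm_mul]
      exact mul_le_one₀ (hB _) (norm_nonneg _) (hb _ _)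
    · rw [norm_zero]
      exact zero_le_one
  let S : ℕ → Finset (Fin k → ℕ) := fun T =>
    (Fintype.piFinset fun _ : Fin k => range (T + 1)).filter fun t => t i = T
  have hScard : ∀ T, ((S T).card : ℝ) ≤ ((T : ℝ) + 1) ^ k := by
    intro T
    have h1 : (S T).card ≤ (T + 1) ^ k := by
      refine (Finset.card_filter_le _ _).trans ?_
      rw [Fintype.card_piFinset]
      simp
    exact_mod_cast h1
  have hSmem : ∀ T t, t ∈ S T → t i = T ∧ ∀ l, t l ≤ t i := by
    intro T t ht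
    obtain ⟨h1, h2⟩ := Finset.mem_filter.1 ht
    refine ⟨h2, fun l => ?_⟩
    have h3 := Finset.mem_range.1 (Fintype.mem_piFinset.1 h1 l)
    omega
  set T₁ := max T₀ N₁ with hT₁
  have hs' : Summable fun T : ℕ => ((T : ℝ) + T₁ + 1) ^ k * R ((T + T₁ + 1) ^ q) := by
    have h1 := (summable_nat_add_iff (T₁ - T₀)).2 hs
    refine h1.congr fun T => ?_
    have h2 : T + (T₁ - T₀) + T₀ = T + T₁ := by
      have : T₀ ≤ T₁ := le_max_left _ _
      omega
    have h3 : ((T + (T₁ - T₀) : ℕ) : ℝ) + T₀ = (T : ℝ) + T₁ := by exact_mod_cast h2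
    rw [h3, h2]
  have hDint : ∀ (T : ℕ), ∀ t ∈ S (T + T₁),
      ∫ a in Set.Ioc A (2 * A), ‖D t a‖ ^ 2 ≤ R ((T + T₁ + 1) ^ q) := by
    intro T t ht
    obtain ⟨h1, h2⟩ := hSmem _ _ ht
    have h3 : gb q t i = (T + T₁ + 1) ^ q := by
      unfold gb
      rw [h1]
    have h4 : N₁ ≤ gb q t i := by
      rw [h3]
      have h5 : N₁ ≤ T₁ := le_max_right _ _
      calc N₁ ≤ T + T₁ + 1 := by omega
        _ ≤ _ := Nat.le_self_pow hq.ne' _
    rw [← h3]
    exact int_box F hmeas hb x c i B hB ε A hA (gb q t) (fun l => Nat.pow_pos (Nat.succ_pos _))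
      (fun l => Nat.pow_le_pow_left (by have := h2 l; omega) q) _ (hN₁ _ h4)
  have hR0 : ∀ T : ℕ, 0 ≤ R ((T + T₁ + 1) ^ q) := by
    intro T
    refine le_trans ?_ (hDint T (fun _ => T + T₁) ?_)
    · exact integral_nonneg fun a => by positivity
    · refine Finset.mem_filter.2 ⟨Fintype.mem_piFinset.2 fun l => ?_, rfl⟩
      exact Finset.mem_range.2 (by omega)
  have hint : ∀ t, Integrable (fun a => ‖D t a‖ ^ 2) (volume.restrict (Set.Ioc A (2 * A))) :=
    fun t => int_of_bdd (hDm t) 1 (hDb t) A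
  have key := ae_summable_of (volume.restrict (Set.Ioc A (2 * A)))
    (fun T a => ∑ t ∈ S (T + T₁), ‖D t a‖ ^ 2)
    (fun T => Finset.measurable_sum _ fun t _ => ((hDm t).norm).pow_const 2)
    (fun T a => Finset.sum_nonneg fun t _ => by positivity) _ hs'
    (fun T => integrable_finsetSum _ fun t _ => hint t) (fun T => by
      rw [integral_finsetSum _ fun t _ => hint t]
      refine (Finset.sum_le_sum (hDint T)).trans ?_
      rw [Finset.sum_const, nsmul_eq_mul]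
      refine mul_le_mul_of_nonneg_right ?_ (hR0 T)
      have := hScard (T + T₁)
      push_cast at this
      exact this)
  filter_upwards [key] with a ha
  intro η hη
  have h2 := ha.tendsto_atTop_zero
  have h3 : ∀ᶠ T : ℕ in atTop, ∑ t ∈ S (T + T₁), ‖D t a‖ ^ 2 < η ^ 2 :=
    h2.eventually (gt_mem_nhds (by positivity))
  obtain ⟨T₂, hT₂⟩ := eventually_atTop.1 h3
  refine ⟨T₂ + T₁, fun t ht1 ht2 => ?_⟩
  have h4 : t ∈ S (t i - T₁ + T₁) := by
    refine Finset.mem_filter.2 ⟨Fintype.mem_piFinset.2 fun l => Finset.mem_range.2 ?_, ?_⟩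
    · have := ht2 l
      omega
    · omega
  have h5 := hT₂ (t i - T₁) (by omega)
  have h6 : ‖D t a‖ ^ 2 ≤ ∑ t ∈ S (t i - T₁ + T₁), ‖D t a‖ ^ 2 :=
    Finset.single_le_sum (f := fun t => ‖D t a‖ ^ 2) (fun _ _ => by positivity) h4
  have h7 : ‖D t a‖ ^ 2 ≤ η ^ 2 := h6.trans h5.le
  exact (pow_le_pow_iff_left₀ (norm_nonneg _) hη.le two_ne_zero).1 h7

/-- natural numbers in a short interval -/
theorem card_short (s : Finset ℕ) (c b E : ℝ) (hc : c ≠ 0) (hE : 0 ≤ E)
    (hs : ∀ n ∈ s, 0 < c * n + b ∧ c * n + b < E) : (s.card : ℝ) ≤ E / |c| + 1 := by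
  rcases s.eq_empty_or_nonempty with h0 | h0
  · rw [h0]
    simp only [Finset.card_empty, Nat.cast_zero]
    positivity
  have h1 : s ⊆ Icc (s.min' h0) (s.max' h0) := fun n hn =>
    Finset.mem_Icc.2 ⟨Finset.min'_le _ _ hn, Finset.le_max' _ _ hn⟩
  have h2 := Finset.card_le_card h1
  rw [Nat.card_Icc] at h2
  have h3 := hs _ (Finset.min'_mem s h0)
  have h4 := hs _ (Finset.max'_mem s h0)
  have h5 : s.min' h0 ≤ s.max' h0 := Finset.min'_le _ _ (Finset.max'_mem s h0)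
  have h6 : (s.card : ℝ) ≤ (s.max' h0 : ℝ) - (s.min' h0 : ℝ) + 1 := by
    have h7 : s.card + s.min' h0 ≤ s.max' h0 + 1 := by omega
    have h8 : (s.card : ℝ) + (s.min' h0 : ℝ) ≤ (s.max' h0 : ℝ) + 1 := by exact_mod_cast h7
    linarith
  refine h6.trans ?_
  have h9 : (s.min' h0 : ℝ) ≤ (s.max' h0 : ℝ) := by exact_mod_cast h5
  have h10 : |c| * ((s.max' h0 : ℝ) - (s.min' h0 : ℝ)) ≤ E := by
    have h11 : |c| * ((s.max' h0 : ℝ) - (s.min' h0 : ℝ)) =
        |c * ((s.max' h0 : ℝ) - (s.min' h0 : ℝ))| := by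
      rw [abs_mul, abs_of_nonneg (sub_nonneg.2 h9)]
    rw [h11, abs_le]
    constructor
    · nlinarith [h3.1, h3.2, h4.1, h4.2]
    · nlinarith [h3.1, h3.2, h4.1, h4.2]
  have h12 : 0 < |c| := abs_pos.2 hc
  have h13 : (s.max' h0 : ℝ) - (s.min' h0 : ℝ) ≤ E / |c| := by
    rw [le_div_iff₀ h12]
    linarith
  linarith

/-- the part of the box where the form is positive and small -/
theorem small_part {k : ℕ} (c : Fin k → ℝ) (i : Fin k) (hc : c i ≠ 0) (M : Fin k → ℕ) (ε : ℝ)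
    (hε : 0 ≤ ε) :
    (((box M).filter fun m => 0 < lin c m ∧ lin c m < ε * (M i : ℕ)).card : ℝ) ≤
      (box (Function.update M i 1)).card * (ε * (M i : ℕ) / |c i| + 1) := by
  have h1 : (((box M).filter fun m => 0 < lin c m ∧ lin c m < ε * (M i : ℕ)).card : ℝ) =
      ∑ m ∈ box M, if 0 < lin c m ∧ lin c m < ε * (M i : ℕ) then (1 : ℝ) else 0 := by
    rw [Finset.sum_boole]
  rw [h1, sum_box i M]
  have h2 : ∀ m ∈ box (Function.update M i 1), (∑ n ∈ Icc 1 (M i),
      if 0 < lin c (Function.update m i n) ∧ lin c (Function.update m i n) < ε * (M i : ℕ) then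
        (1 : ℝ) else 0) ≤ ε * (M i : ℕ) / |c i| + 1 := by
    intro m _
    rw [Finset.sum_boole]
    refine card_short _ (c i) (bm c i m) _ hc (by positivity) fun n hn => ?_
    have h3 := (Finset.mem_filter.1 hn).2
    rw [lin_update] at h3
    exact h3
  refine (Finset.sum_le_sum h2).trans ?_
  rw [Finset.sum_const, nsmul_eq_mul]

theorem exists_root {q : ℕ} (hq : 0 < q) {N : ℕ} (hN : 1 ≤ N) :
    ∃ t : ℕ, (t + 1) ^ q ≤ N ∧ N < (t + 2) ^ q := by
  classical
  have hex : ∃ k, N < (k + 1) ^ q := ⟨N, by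
    calc N < N + 1 := Nat.lt_succ_self N
      _ ≤ (N + 1) ^ q := Nat.le_self_pow hq.ne' _⟩
  have hspec := Nat.find_spec hex
  set s := Nat.find hex with hs
  have hs1 : 0 < s := by
    by_contra hcon
    have h0 : s = 0 := by omega
    rw [h0, zero_add, one_pow] at hspec
    omega
  obtain ⟨l, hkl⟩ : ∃ l, s = l + 1 := ⟨s - 1, by omega⟩
  refine ⟨l, ?_, ?_⟩
  · have h3 := Nat.find_min hex (m := l) (by omega)
    omega
  · rw [hkl] at hspec
    exact hspec

/-- from the grid boxes to all boxes -/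
theorem det_box {k : ℕ} (c : Fin k → ℝ) (i : Fin k) (hc : c i ≠ 0) {h : (Fin k → ℕ) → ℂ}
    (hh : ∀ m, ‖h m‖ ≤ 1)
    (H : ∀ j : ℕ, ∃ q : ℕ, 0 < q ∧ ∀ η : ℝ, 0 < η → ∃ T₁ : ℕ, ∀ t : Fin k → ℕ,
      T₁ ≤ t i → (∀ l, t l ≤ t i) →
      ‖bavg (gb q t) (fun m => if (1 / ((j : ℝ) + 1)) * (gb q t i : ℕ) ≤ lin c m then
        h m else 0)‖ ≤ η) :
    TZ i (fun M => bavg M (fun m => if 0 < lin c m then h m else 0)) := by
  intro η₀ hη₀
  set η := min η₀ 1 with hη
  have hη0 : 0 < η := lt_min hη₀ one_pos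
  have hη1 : η ≤ 1 := min_le_right _ _
  have hci : 0 < |c i| := abs_pos.2 hc
  obtain ⟨j, hj⟩ := exists_nat_one_div_lt (show (0 : ℝ) < η / 4 * |c i| by positivity)
  obtain ⟨q, hq, H1⟩ := H j
  obtain ⟨T₁, hT₁⟩ := H1 (η / 4) (by positivity)
  set ζ : ℝ := η / (4 * ((k : ℝ) + 1)) with hζ
  have hζ0 : 0 < ζ := by positivity
  have hζ1 : ζ ≤ 1 := by
    rw [hζ, div_le_one (by positivity)]
    have : (0 : ℝ) ≤ k := Nat.cast_nonneg k
    linarith
  obtain ⟨T₂, hT₂⟩ := exists_nat_gt ((q : ℝ) / ζ)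
  obtain ⟨T₃, hT₃⟩ := exists_nat_gt (4 / η)
  set T := max T₁ (max T₂ T₃) with hT
  have hTT1 : T₁ ≤ T := le_max_left _ _
  have hTT2 : T₂ ≤ T := (le_max_left _ _).trans (le_max_right _ _)
  have hTT3 : T₃ ≤ T := (le_max_right _ _).trans (le_max_right _ _)
  refine ⟨(T + 1) ^ q, fun M hM hMi => ?_⟩
  have hTq : 1 ≤ (T + 1) ^ q := Nat.one_le_pow _ _ (Nat.succ_pos _)
  have hM1 : ∀ l, 1 ≤ M l := fun l => hTq.trans (hM l)
  choose t ht1 ht2 using fun l => exists_root hq (hM1 l)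
  have htT : ∀ l, T ≤ t l := by
    intro l
    have h1 : (T + 1) ^ q < (t l + 2) ^ q := lt_of_le_of_lt (hM l) (ht2 l)
    have h2 := lt_of_pow_lt_pow_left₀ q (Nat.zero_le _) h1
    omega
  have hti : ∀ l, t l ≤ t i := by
    intro l
    have h1 : (t l + 1) ^ q < (t i + 2) ^ q := lt_of_le_of_lt ((ht1 l).trans (hMi l)) (ht2 i)
    have h2 := lt_of_pow_lt_pow_left₀ q (Nat.zero_le _) h1
    omega
  set M' : Fin k → ℕ := gb q t with hM'
  have hM'M : ∀ l, M' l ≤ M l := ht1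
  have hM'0 : ∀ l, 0 < M' l := fun l => Nat.pow_pos (Nat.succ_pos _)
  set g : (Fin k → ℕ) → ℂ := fun m => if 0 < lin c m then h m else 0 with hg
  have hg1 : ∀ m, ‖g m‖ ≤ 1 := by
    intro m
    simp only [hg]
    split_ifs
    · exact hh m
    · rw [norm_zero]; exact zero_le_one
  set ε : ℝ := 1 / ((j : ℝ) + 1) with hε
  have hε0 : 0 < ε := by positivity
  set P : ℝ := ((∏ l, M l : ℕ) : ℝ) with hP
  set P' : ℝ := ((∏ l, M' l : ℕ) : ℝ) with hP'
  have hP0 : 0 < P := by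
    rw [hP]
    exact_mod_cast Finset.prod_pos fun l _ => hM1 l
  have hP'0 : 0 < P' := by
    rw [hP']
    exact_mod_cast Finset.prod_pos fun l _ => hM'0 l
  have hP'P : P' ≤ P := by
    rw [hP, hP']
    exact_mod_cast Finset.prod_le_prod' fun l _ => hM'M l
  -- the ratio of the volumes
  have hratio : (1 - ζ) ^ k * P ≤ P' := by
    have h1 : ∀ l, (1 - ζ) * (M l : ℝ) ≤ (M' l : ℝ) := by
      intro l
      have h2 : (M l : ℝ) ≤ ((t l : ℝ) + 2) ^ q := by exact_mod_cast (ht2 l).le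
      have h3 : (M' l : ℝ) = ((t l : ℝ) + 1) ^ q := by
        rw [hM']
        unfold gb
        push_cast
        rfl
      have h4 : (1 - ζ) * ((t l : ℝ) + 2) ^ q ≤ ((t l : ℝ) + 1) ^ q := by
        have h5 : ((t l : ℝ) + 1) ^ q = (1 + (-(1 / ((t l : ℝ) + 2)))) ^ q * ((t l : ℝ) + 2) ^ q := by
          rw [← mul_pow]
          congr 1
          field_simp
          ring
        rw [h5]
        refine mul_le_mul_of_nonneg_right ?_ (by positivity)
        have h6 : (-2 : ℝ) ≤ -(1 / ((t l : ℝ) + 2)) := by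
          have h7 : 1 / ((t l : ℝ) + 2) ≤ 1 := by
            rw [div_le_one (by positivity)]
            have : (0 : ℝ) ≤ t l := Nat.cast_nonneg _
            linarith
          linarith
        refine le_trans ?_ (one_add_mul_le_pow h6 q)
        have h8 : (q : ℝ) / ζ ≤ (t l : ℝ) + 2 := by
          have h9 : (T₂ : ℝ) ≤ t l := by exact_mod_cast hTT2.trans (htT l)
          linarith
        have h10 : (q : ℝ) * (1 / ((t l : ℝ) + 2)) ≤ ζ := by
          rw [div_le_iff₀ hζ0] at h8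
          rw [mul_one_div, div_le_iff₀ (by positivity)]
          linarith
        linarith
      rw [h3]
      refine le_trans ?_ h4
      exact mul_le_mul_of_nonneg_left h2 (by linarith)
    have h11 : ∏ l : Fin k, ((1 - ζ) * (M l : ℝ)) ≤ ∏ l, (M' l : ℝ) :=
      Finset.prod_le_prod (fun l _ => mul_nonneg (by linarith) (Nat.cast_nonneg _)) fun l _ => h1 l
    rw [Finset.prod_mul_distrib, Finset.prod_const, Finset.card_univ, Fintype.card_fin] at h11
    rw [hP, hP']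
    push_cast
    exact h11
  have hdiff : P - P' ≤ η / 4 * P := by
    have h1 : 1 - η / 4 ≤ (1 - ζ) ^ k := by
      have h2 : (-2 : ℝ) ≤ -ζ := by linarith
      have h3 := one_add_mul_le_pow h2 k
      have h4 : (k : ℝ) * ζ ≤ η / 4 := by
        rw [hζ]
        rw [mul_div_assoc', div_le_div_iff₀ (by positivity) (by norm_num)]
        have : (0 : ℝ) ≤ k := Nat.cast_nonneg k
        nlinarith
      calc 1 - η / 4 ≤ 1 + k * -ζ := by linarith
        _ ≤ (1 + -ζ) ^ k := h3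
        _ = (1 - ζ) ^ k := by ring
    nlinarith
  -- the difference of the boxes
  have hsub : box M' ⊆ box M := by
    intro m hm
    rw [mem_box] at hm ⊢
    exact fun l => ⟨(hm l).1, (hm l).2.trans (hM'M l)⟩
  have e1 : ‖∑ m ∈ box M, g m - ∑ m ∈ box M', g m‖ ≤ η / 4 * P := by
    rw [← Finset.sum_sdiff hsub, add_sub_cancel_right]
    refine (norm_sum_le _ _).trans ((Finset.sum_le_sum fun m _ => hg1 m).trans ?_)
    rw [Finset.sum_const, nsmul_eq_mul, mul_one, Finset.cast_card_sdiff hsub, card_box, card_box]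
    exact hdiff
  -- the small part
  have e2 : ‖∑ m ∈ box M', g m - ∑ m ∈ box M', (if ε * (M' i : ℕ) ≤ lin c m then h m else 0)‖ ≤
      η / 2 * P' := by
    rw [← Finset.sum_sub_distrib]
    have h1 : ∀ m, ‖g m - (if ε * (M' i : ℕ) ≤ lin c m then h m else 0)‖ ≤
        if 0 < lin c m ∧ lin c m < ε * (M' i : ℕ) then (1 : ℝ) else 0 := by
      intro m
      simp only [hg]
      have hpos : 0 < ε * ((M' i : ℕ) : ℝ) := mul_pos hε0 (Nat.cast_pos.2 (hM'0 i))
      by_cases h2 : 0 < lin c m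
      · by_cases h3 : ε * ((M' i : ℕ) : ℝ) ≤ lin c m
        · rw [if_pos h2, if_pos h3, sub_self, norm_zero]
          split_ifs <;> norm_num
        · rw [if_pos h2, if_neg h3, sub_zero, if_pos ⟨h2, not_le.1 h3⟩]
          exact hh m
      · have h3 : ¬ ε * ((M' i : ℕ) : ℝ) ≤ lin c m := fun h4 => h2 (hpos.trans_le h4)
        rw [if_neg h2, if_neg h3, sub_self, norm_zero]
        split_ifs <;> norm_num
    refine (norm_sum_le _ _).trans ((Finset.sum_le_sum fun m _ => h1 m).trans ?_)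
    rw [Finset.sum_boole]
    refine (small_part c i hc M' ε hε0.le).trans ?_
    have h2 : P' = ((box (Function.update M' i 1)).card : ℝ) * (M' i : ℝ) := by
      rw [hP', card_split i M']
      push_cast
      rfl
    rw [h2]
    have h3 : ε * ((M' i : ℕ) : ℝ) / |c i| ≤ η / 4 * (M' i : ℝ) := by
      rw [div_le_iff₀ hci]
      have h4 : (0 : ℝ) ≤ (M' i : ℝ) := Nat.cast_nonneg _
      have h5 : ε ≤ η / 4 * |c i| := hj.le
      nlinarith
    have h4 : (1 : ℝ) ≤ η / 4 * (M' i : ℝ) := by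
      have h5 : (T₃ : ℝ) ≤ (M' i : ℝ) := by
        have h6 : T₃ ≤ M' i := by
          calc T₃ ≤ t i + 1 := by have := hTT3.trans (htT i); omega
            _ ≤ (t i + 1) ^ q := Nat.le_self_pow hq.ne' _
        exact_mod_cast h6
      rw [div_lt_iff₀ hη0] at hT₃
      nlinarith
    have h5 : (0 : ℝ) ≤ ((box (Function.update M' i 1)).card : ℝ) := Nat.cast_nonneg _
    nlinarith
  -- the grid box
  have e3 : ‖∑ m ∈ box M', (if ε * (M' i : ℕ) ≤ lin c m then h m else 0)‖ ≤ η / 4 * P' := by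
    have h1 := hT₁ t (hTT1.trans (htT i)) hti
    unfold bavg at h1
    rw [norm_mul, norm_div, norm_one, Complex.norm_natCast] at h1
    change 1 / P' * ‖∑ m ∈ box M', (if ε * (M' i : ℕ) ≤ lin c m then h m else 0)‖ ≤ η / 4 at h1
    rw [one_div, inv_mul_le_iff₀ hP'0] at h1
    linarith
  have e4 : ‖∑ m ∈ box M, g m‖ ≤ η * P := by
    have h1 : ∑ m ∈ box M, g m = (∑ m ∈ box M, g m - ∑ m ∈ box M', g m) +
        (∑ m ∈ box M', g m - ∑ m ∈ box M', (if ε * (M' i : ℕ) ≤ lin c m then h m else 0)) +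
        ∑ m ∈ box M', (if ε * (M' i : ℕ) ≤ lin c m then h m else 0) := by ring
    rw [h1]
    refine (norm_add_le _ _).trans ?_
    refine (add_le_add ((norm_add_le _ _).trans (add_le_add e1 e2)) e3).trans ?_
    nlinarith
  change ‖bavg M g‖ ≤ η₀
  refine le_trans ?_ (min_le_left η₀ 1)
  unfold bavg
  rw [norm_mul, norm_div, norm_one, Complex.norm_natCast]
  change 1 / P * ‖∑ m ∈ box M, g m‖ ≤ η
  rw [one_div, inv_mul_le_iff₀ hP0]
  linarith

theorem summable_boundC {δ C : ℝ} {q k : ℕ} (hq : (k : ℝ) + 1 < q * δ) (l₀ : ℕ) :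
    Summable fun l : ℕ => ((l : ℝ) + l₀ + 1) ^ k *
      (C * ((((l + l₀ + 1) ^ q : ℕ) : ℝ)) ^ (-δ)) := by
  have h1 : Summable fun n : ℕ => (n : ℝ) ^ ((k : ℝ) - q * δ) :=
    Real.summable_nat_rpow.2 (by linarith)
  have h2 := ((summable_nat_add_iff (l₀ + 1)).2 h1).mul_left C
  refine h2.congr fun l => ?_
  have h3 : (0 : ℝ) < (l : ℝ) + l₀ + 1 := by positivity
  have h4 : ((l + (l₀ + 1) : ℕ) : ℝ) = (l : ℝ) + l₀ + 1 := by push_cast; ring
  have h5 : (((l + l₀ + 1) ^ q : ℕ) : ℝ) = ((l : ℝ) + l₀ + 1) ^ (q : ℝ) := by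
    rw [Real.rpow_natCast]
    push_cast
    rfl
  rw [h4, h5, ← Real.rpow_mul h3.le, sub_eq_add_neg, Real.rpow_add h3, Real.rpow_natCast]
  have h6 : (q : ℝ) * -δ = -(q * δ) := by ring
  rw [h6]
  ring

theorem nicec (h : S_ESTC.{u}) : S_NICEC.{u} := by
  intro k c i hc X _ μ _ T F hF
  have hC1 : 0 < ∑ l, |c l| + 1 := by
    have : 0 ≤ ∑ l, |c l| := Finset.sum_nonneg fun l _ => abs_nonneg _
    linarith
  have h1 : ∀ (j : ℕ) (s : ℤ), ∃ (R : ℕ → X → ℝ) (q : ℕ), 0 < q ∧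
      (∀ᵐ x ∂μ, ∃ l₀ : ℕ, Summable fun l : ℕ =>
        ((l : ℝ) + l₀ + 1) ^ k * R ((l + l₀ + 1) ^ q) x) ∧
      ∀ᶠ N : ℕ in atTop, ∀ (x : X) (B : ℕ → ℂ) (b : ℝ), (∀ n, ‖B n‖ ≤ 1) →
        |b| ≤ (∑ l, |c l| + 1) * N →
        ∫ a in (2 : ℝ) ^ s..2 * (2 : ℝ) ^ s, ‖(1 / (N : ℂ)) *
          ∑ n ∈ (Icc 1 N).filter (fun n : ℕ => (1 / ((j : ℝ) + 1)) * N ≤ c i * n + b),
            B n * F x (a * (c i * n + b))‖ ^ 2 ≤ R N x := by
    intro j s
    obtain ⟨R, C, δ, hδ, hRm, hR0, hRi, hRe⟩ := h (c i) (∑ l, |c l| + 1) hc hC1 X μ T F hF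
      (1 / ((j : ℝ) + 1)) ((2 : ℝ) ^ s) (by positivity) (by positivity)
    obtain ⟨q, hq⟩ := exists_nat_gt (((k : ℝ) + 1) / δ)
    have hq1 : (k : ℝ) + 1 < q * δ := by
      rw [div_lt_iff₀ hδ] at hq
      exact hq
    have hq0 : 0 < q := by
      rcases Nat.eq_zero_or_pos q with h0 | h0
      · rw [h0] at hq1
        have : (0 : ℝ) ≤ k := Nat.cast_nonneg k
        norm_num at hq1
        linarith
      · exact h0
    refine ⟨R, q, hq0, ?_, hRe⟩
    obtain ⟨N₀, hN₀⟩ := eventually_atTop.1 hRi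
    have hge : ∀ l : ℕ, N₀ ≤ (l + N₀ + 1) ^ q := by
      intro l
      calc N₀ ≤ l + N₀ + 1 := by omega
        _ ≤ _ := Nat.le_self_pow hq0.ne' _
    have key := ae_summable_of μ (fun l x => ((l : ℝ) + N₀ + 1) ^ k * R ((l + N₀ + 1) ^ q) x)
      (fun l => (hRm _).const_mul _) (fun l x => mul_nonneg (by positivity) (hR0 _ x)) _
      (summable_boundC (C := C) hq1 N₀) (fun l => (hN₀ _ (hge l)).1.const_mul _)
      (fun l => by
        rw [integral_const_mul]
        exact mul_le_mul_of_nonneg_left (hN₀ _ (hge l)).2 (by positivity))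
    filter_upwards [key] with x hx
    exact ⟨N₀, hx⟩
  choose R q hq0 hs hR using h1
  have hs' : ∀ᵐ x ∂μ, ∀ (j : ℕ) (s : ℤ), ∃ l₀ : ℕ,
      Summable fun l : ℕ => ((l : ℝ) + l₀ + 1) ^ k * R j s ((l + l₀ + 1) ^ q j s) x :=
    ae_all_iff.2 fun j => ae_all_iff.2 fun s => hs j s
  filter_upwards [hs'] with x hx
  intro B hB
  have h2 : ∀ s : ℤ, ∀ᵐ a ∂(volume.restrict (Set.Ioc ((2 : ℝ) ^ s) ((2 : ℝ) ^ (s + 1)))),
      TZ i (fun M => bavg M (fun m => if 0 < lin c m then B m * F x (a * lin c m) else 0)) := by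
    intro s
    have h3 : ∀ j : ℕ, ∀ᵐ a ∂(volume.restrict (Set.Ioc ((2 : ℝ) ^ s) ((2 : ℝ) ^ (s + 1)))),
        ∀ η : ℝ, 0 < η → ∃ T₁ : ℕ, ∀ t : Fin k → ℕ, T₁ ≤ t i → (∀ l, t l ≤ t i) →
        ‖bavg (gb (q j s) t) (fun m => if (1 / ((j : ℝ) + 1)) * (gb (q j s) t i : ℕ) ≤ lin c m then
          B m * F x (a * lin c m) else 0)‖ ≤ η := by
      intro j
      obtain ⟨l₀, hl₀⟩ := hx j s
      have h4 := ae_grid F hF.stat.meas hF.stat.bdd x c i B hB (1 / ((j : ℝ) + 1)) ((2 : ℝ) ^ s)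
        (by positivity) (fun N => R j s N x) (q j s) (hq0 j s) l₀ hl₀
        ((hR j s).mono fun N hN => hN x)
      have h5 : 2 * (2 : ℝ) ^ s = 2 ^ (s + 1) := by
        rw [zpow_add₀ two_ne_zero, zpow_one, mul_comm]
      rw [h5] at h4
      exact h4
    filter_upwards [ae_all_iff.2 h3] with a ha
    refine det_box c i hc (fun m => ?_) fun j => ⟨q j s, hq0 j s, ha j⟩
    rw [norm_mul]
    exact mul_le_one₀ (hB m) (norm_nonneg _) (hF.stat.bdd x _)
  have h6 : ∀ᵐ a ∂(volume.restrict (⋃ s : ℤ, Set.Ioc ((2 : ℝ) ^ s) ((2 : ℝ) ^ (s + 1)))),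
      TZ i (fun M => bavg M (fun m => if 0 < lin c m then B m * F x (a * lin c m) else 0)) := by
    rw [ae_restrict_iUnion_iff]
    exact h2
  refine ae_mono (Measure.restrict_mono_set _ ?_) h6
  intro a ha
  obtain ⟨s, hs⟩ := exists_mem_Ioc_zpow (show (0 : ℝ) < a from ha) (one_lt_two)
  exact Set.mem_iUnion.2 ⟨s, hs⟩

end Pool.Agent.Y86.MC
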